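import Mathlib

/-!
# The induced saturation number of the Boolean lattice `Q_4`

For `n ≥ 10` we exhibit a `Q_4`-saturated family of at most `6 * n - 5` subsets of `[n]`.  Hence
`sat*(n, Q_4) ≤ 6 n - 5`, so that `sat*(n, Q_4) = 7 n - c` fails for every constant `c` and all
large `n`.

The family consists of `∅`, `[n]`, all singletons and their complements, and a family `T` of
further sets with the following two properties: no four element set `X` has all its six pairs as
traces `T ∩ X` of members of `T`; and adding any further set to `T` creates such an `X`.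
-/

set_option autoImplicit false

namespace Pool.Agent.Results.MP_a8c71c_co.BooleanLatticeSat

open Finset

/-- The family `F` contains an induced copy of the poset `P`. -/
def HasInducedCopy (P : Type) [PartialOrder P] (F : Finset (Finset ℕ)) : Prop :=
  ∃ f : P → Finset ℕ, Function.Injective f ∧ (∀ x, f x ∈ F) ∧ ∀ x y, x ≤ y ↔ f x ⊆ f y

/-- `F` is a `P`-saturated family of subsets of `[n] = {1, …, n}`. -/
def IsSaturated (P : Type) [PartialOrder P] (n : ℕ) (F : Finset (Finset ℕ)) : Prop :=
  (∀ S ∈ F, S ⊆ Finset.Icc 1 n) ∧ ¬ HasInducedCopy P F ∧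
    ∀ S, S ⊆ Finset.Icc 1 n → S ∉ F → HasInducedCopy P (insert S F)

/-- The induced saturation number `sat*(n, P)`. -/
noncomputable def satStar (P : Type) [PartialOrder P] (n : ℕ) : ℕ :=
  sInf {m | ∃ F, IsSaturated P n F ∧ F.card = m}

/-- The Boolean lattice `Q_k`: all subsets of a `k`-element set, ordered by inclusion. -/
abbrev Q (k : ℕ) : Type := Finset (Fin k)

/-! ### The family -/

/-- A code `(c, b, h)`: the set with base bits `b` (and the element `q` if `h`), complemented
if `c`. -/
abbrev Code : Type := Bool × ℕ × Bool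

/-- The codes of the sets with a variable element. -/
def linCodes : List Code := [(false, 2, true), (false, 8, true), (true, 4, true), (true, 16, true)]

/-- The codes of the constant sets. -/
def constCodes : List Code :=
  [(false, 48, false), (false, 80, false), (false, 18, false), (false, 50, false),
   (false, 82, false), (false, 88, false), (false, 60, false), (false, 92, false),
   (true, 90, false), (true, 58, false), (true, 56, false), (true, 24, false),
   (true, 80, false), (true, 48, false), (true, 12, false), (true, 68, false),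
   (true, 36, false)]

/-- All codes. -/
def codes : List Code := linCodes ++ constCodes

/-- Membership of `x` in the set with code `c` and variable element `q`. -/
def inT (c : Code) (q x : ℕ) : Bool :=
  xor c.1 ((Nat.ble x 6 && c.2.1.testBit x) || (c.2.2 && Nat.beq x q))

/-- The set with code `c` and variable element `q`. -/
def TT (n : ℕ) (c : Code) (q : ℕ) : Finset ℕ := (Icc 1 n).filter fun x => inT c q x = true

/-- The saturated family. -/
def Fam (n : ℕ) : Finset (Finset ℕ) :=
  ((({∅, Icc 1 n} : Finset (Finset ℕ)) ∪ (Icc 1 n).image (fun x => ({x} : Finset ℕ))) ∪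
    (Icc 1 n).image (fun x => Icc 1 n \ {x})) ∪
    (constCodes.toFinset.image (fun c => TT n c 7) ∪
      (linCodes.toFinset ×ˢ Icc 7 n).image (fun p => TT n p.1 p.2))

theorem card_Fam {n : ℕ} (hn : 10 ≤ n) : (Fam n).card ≤ 6 * n - 5 := by
  unfold Fam
  have h1 : (({∅, Icc 1 n} : Finset (Finset ℕ))).card ≤ 2 := card_le_two
  have h2 : ((Icc 1 n).image (fun x => ({x} : Finset ℕ))).card ≤ n := by
    simpa using (card_image_le (s := Icc 1 n) (f := fun x => ({x} : Finset ℕ)))
  have h3 : ((Icc 1 n).image (fun x => Icc 1 n \ {x})).card ≤ n := by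
    simpa using (card_image_le (s := Icc 1 n) (f := fun x => Icc 1 n \ {x}))
  have h4 : (constCodes.toFinset.image (fun c => TT n c 7)).card ≤ 17 :=
    card_image_le.trans ((List.toFinset_card_le _).trans (by simp [constCodes]))
  have h5 : ((linCodes.toFinset ×ˢ Icc 7 n).image (fun p => TT n p.1 p.2)).card
      ≤ 4 * (n - 6) := by
    refine card_image_le.trans ?_
    rw [card_product]
    refine Nat.mul_le_mul ((List.toFinset_card_le _).trans (by simp [linCodes])) ?_
    simp
  have h6 := card_union_le (({∅, Icc 1 n} : Finset (Finset ℕ)))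
    ((Icc 1 n).image (fun x => ({x} : Finset ℕ)))
  have h7 := card_union_le ((({∅, Icc 1 n} : Finset (Finset ℕ)) ∪
    (Icc 1 n).image (fun x => ({x} : Finset ℕ)))) ((Icc 1 n).image (fun x => Icc 1 n \ {x}))
  have h8 := card_union_le (constCodes.toFinset.image (fun c => TT n c 7))
    ((linCodes.toFinset ×ˢ Icc 7 n).image (fun p => TT n p.1 p.2))
  have h9 := card_union_le ((({∅, Icc 1 n} : Finset (Finset ℕ)) ∪
    (Icc 1 n).image (fun x => ({x} : Finset ℕ))) ∪ (Icc 1 n).image (fun x => Icc 1 n \ {x}))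
    (constCodes.toFinset.image (fun c => TT n c 7) ∪
      (linCodes.toFinset ×ˢ Icc 7 n).image (fun p => TT n p.1 p.2))
  omega

theorem TT_subset (n : ℕ) (c : Code) (q : ℕ) : TT n c q ⊆ Icc 1 n := filter_subset _ _

theorem mem_TT {n : ℕ} {c : Code} {q x : ℕ} (hx : x ∈ Icc 1 n) :
    x ∈ TT n c q ↔ inT c q x = true := by simp [TT, hx]

theorem TT_mem_Fam {n : ℕ} {c : Code} (hc : c ∈ codes) {q : ℕ} (hq : q ∈ Icc 7 n) :
    TT n c q ∈ Fam n := by
  unfold Fam
  rw [codes, List.mem_append] at hc
  refine mem_union_right _ ?_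
  rcases hc with hc | hc
  · exact mem_union_right _ (mem_image.2 ⟨(c, q), by simp [hc] at hq ⊢; exact hq, rfl⟩)
  · refine mem_union_left _ (mem_image.2 ⟨c, by simpa using hc, ?_⟩)
    have h : c.2.2 = false := by
      have : ∀ c ∈ constCodes, c.2.2 = false := by decide
      exact this c hc
    ext x
    simp [TT, inT, h]

theorem mem_Fam {n : ℕ} (hn : 10 ≤ n) {S : Finset ℕ} (hS : S ∈ Fam n) :
    S = ∅ ∨ S = Icc 1 n ∨ (∃ x ∈ Icc 1 n, S = {x}) ∨ (∃ x ∈ Icc 1 n, S = Icc 1 n \ {x}) ∨
      ∃ c ∈ codes, ∃ q ∈ Icc 7 n, S = TT n c q := by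
  unfold Fam at hS
  simp only [mem_union, mem_insert, mem_singleton, mem_image, List.mem_toFinset,
    mem_product] at hS
  rcases hS with (((h | h) | ⟨x, hx, rfl⟩) | ⟨x, hx, rfl⟩) |
    (⟨c, hc, rfl⟩ | ⟨⟨c, q⟩, ⟨hc, hq⟩, rfl⟩)
  · exact Or.inl h
  · exact Or.inr (Or.inl h)
  · exact Or.inr (Or.inr (Or.inl ⟨x, hx, rfl⟩))
  · exact Or.inr (Or.inr (Or.inr (Or.inl ⟨x, hx, rfl⟩)))
  · exact Or.inr (Or.inr (Or.inr (Or.inr ⟨c, by simp [codes, hc], 7, by simp; omega, rfl⟩)))
  · exact Or.inr (Or.inr (Or.inr (Or.inr ⟨c, by simp only [codes, List.mem_append]; exact Or.inl hc,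
      q, hq, rfl⟩)))

theorem empty_mem_Fam (n : ℕ) : (∅ : Finset ℕ) ∈ Fam n := by simp [Fam]

theorem Icc_mem_Fam (n : ℕ) : Icc 1 n ∈ Fam n := by simp [Fam]

theorem single_mem_Fam {n x : ℕ} (hx : x ∈ Icc 1 n) : ({x} : Finset ℕ) ∈ Fam n := by
  unfold Fam
  refine mem_union_left _ (mem_union_left _ (mem_union_right _ (mem_image.2 ⟨x, hx, rfl⟩)))

theorem cosingle_mem_Fam {n x : ℕ} (hx : x ∈ Icc 1 n) : Icc 1 n \ {x} ∈ Fam n := by
  unfold Fam
  exact mem_union_left _ (mem_union_right _ (mem_image.2 ⟨x, hx, rfl⟩))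

theorem Fam_subset {n : ℕ} (hn : 10 ≤ n) {S : Finset ℕ} (hS : S ∈ Fam n) : S ⊆ Icc 1 n := by
  rcases mem_Fam hn hS with rfl | rfl | ⟨x, hx, rfl⟩ | ⟨x, hx, rfl⟩ | ⟨c, -, q, -, rfl⟩
  · simp
  · exact Subset.rfl
  · simpa using hx
  · exact sdiff_subset
  · exact TT_subset _ _ _

/-! ### Finite facts -/

/-- Some coded set contains `a, b` but not `c, d`. -/
def pairHit (L : List ℕ) (a b c d : ℕ) : Bool :=
  codes.any fun k => L.any fun q => inT k q a && (inT k q b && (!inT k q c && !inT k q d))

/-- The positions. -/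
def rng : List ℕ := [1, 2, 3, 4, 5, 6, 7, 8, 9, 10]

/-- No four positions have all six pairs as traces. -/
def freeCheck : Bool :=
  rng.all fun a => rng.all fun b => !(Nat.blt a b) || rng.all fun c => !(Nat.blt b c) ||
    rng.all fun d => !(Nat.blt c d) ||
      !(pairHit [7, 8, 9, 10, 11] a b c d && (pairHit [7, 8, 9, 10, 11] a c b d &&
        (pairHit [7, 8, 9, 10, 11] a d b c && (pairHit [7, 8, 9, 10, 11] b c a d &&
          (pairHit [7, 8, 9, 10, 11] b d a c && pairHit [7, 8, 9, 10, 11] c d a b)))))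

theorem freeCheck_eq : freeCheck = true := by decide +kernel

/-- Quadruples `(a, b, c, d)` all of whose pairs except `{a, b}` are traces. -/
def entries : List (ℕ × ℕ × ℕ × ℕ) :=
  [(1, 3, 9, 10), (8, 9, 2, 4), (1, 2, 3, 9), (4, 7, 1, 2), (5, 6, 1, 9), (2, 8, 5, 6),
   (4, 8, 3, 5), (3, 5, 1, 4), (2, 5, 3, 7), (7, 8, 2, 4), (4, 7, 3, 6), (3, 6, 1, 4),
   (4, 8, 1, 2), (4, 7, 1, 5), (5, 6, 3, 9), (1, 3, 5, 7), (2, 6, 3, 7), (1, 3, 6, 7),
   (4, 7, 1, 6), (2, 3, 5, 6), (1, 5, 2, 4), (1, 6, 2, 4), (2, 5, 3, 9), (2, 6, 3, 9),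
   (3, 4, 5, 6), (3, 5, 1, 2), (1, 2, 3, 6), (4, 7, 1, 3), (5, 6, 1, 4), (4, 8, 1, 5),
   (4, 8, 1, 6), (5, 6, 1, 7), (2, 4, 3, 7), (5, 7, 2, 4), (6, 7, 2, 4), (2, 7, 5, 6),
   (4, 7, 3, 5), (4, 8, 3, 6), (5, 6, 3, 7)]

/-- The entries are correct. -/
def entryCheck : Bool :=
  entries.all fun e =>
    pairHit [7, 8, 9, 10] e.1 e.2.2.1 e.2.1 e.2.2.2 &&
    (pairHit [7, 8, 9, 10] e.1 e.2.2.2 e.2.1 e.2.2.1 &&
    (pairHit [7, 8, 9, 10] e.2.1 e.2.2.1 e.1 e.2.2.2 &&
    (pairHit [7, 8, 9, 10] e.2.1 e.2.2.2 e.1 e.2.2.1 &&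
    (pairHit [7, 8, 9, 10] e.2.2.1 e.2.2.2 e.1 e.2.1 &&
    (rng.contains e.1 && (rng.contains e.2.1 && (rng.contains e.2.2.1 &&
      rng.contains e.2.2.2)))))))

theorem entryCheck_eq : entryCheck = true := by decide +kernel

/-- Some entry handles the set with membership function `s`. -/
def handled (s : ℕ → Bool) : Bool :=
  entries.any fun e => s e.1 && (s e.2.1 && (!s e.2.2.1 && !s e.2.2.2))

/-- The codes of trivial sets. -/
def triv : List (ℕ × Bool) :=
  [(0, false), (2, false), (4, false), (8, false), (16, false), (32, false), (64, false),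
   (0, true)]

/-- Every set of special type is a member of the family or handled. -/
def cover1 : Bool :=
  [false, true].all fun co => [false, true].all fun h => (List.range 64).all fun r =>
    codes.contains (co, 2 * r, h) || (triv.contains (2 * r, h) || handled (inT (co, 2 * r, h) 7))

theorem cover1_eq : cover1 = true := by decide +kernel

/-- Membership function of a set with pattern `r` and two of the four variable elements. -/
def twoTwo (r p : ℕ) : Bool := (Nat.ble p 6 && (2 * r).testBit p) || (Nat.beq p 7 || Nat.beq p 8)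

/-- Every set of general type is handled. -/
def cover2 : Bool := (List.range 64).all fun r => handled (twoTwo r)

theorem cover2_eq : cover2 = true := by decide +kernel

/-! ### The family contains no induced `Q_4` -/

theorem pairHit_iff {L : List ℕ} {a b c d : ℕ} : pairHit L a b c d = true ↔
    ∃ k ∈ codes, ∃ q ∈ L, inT k q a = true ∧ inT k q b = true ∧ inT k q c = false ∧
      inT k q d = false := by
  simp [pairHit, List.any_eq_true]

theorem free_fact {a b c d : ℕ} (ha : 1 ≤ a) (hab : a < b) (hbc : b < c) (hcd : c < d)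
    (hd : d ≤ 10) (h1 : pairHit [7, 8, 9, 10, 11] a b c d = true)
    (h2 : pairHit [7, 8, 9, 10, 11] a c b d = true)
    (h3 : pairHit [7, 8, 9, 10, 11] a d b c = true)
    (h4 : pairHit [7, 8, 9, 10, 11] b c a d = true)
    (h5 : pairHit [7, 8, 9, 10, 11] b d a c = true)
    (h6 : pairHit [7, 8, 9, 10, 11] c d a b = true) : False := by
  have hm : ∀ x, 1 ≤ x → x ≤ 10 → x ∈ rng := by
    intro x h1 h2
    interval_cases x <;> decide
  have h := freeCheck_eq
  unfold freeCheck at h
  rw [List.all_eq_true] at h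
  have h := h a (hm a ha (by omega))
  rw [List.all_eq_true] at h
  have h := h b (hm b (by omega) (by omega))
  have e1 : Nat.blt a b = true := by simp [Nat.blt_eq, hab]
  have e2 : Nat.blt b c = true := by simp [Nat.blt_eq, hbc]
  have e3 : Nat.blt c d = true := by simp [Nat.blt_eq, hcd]
  rw [e1, Bool.not_true, Bool.false_or, List.all_eq_true] at h
  have h := h c (hm c (by omega) (by omega))
  rw [e2, Bool.not_true, Bool.false_or, List.all_eq_true] at h
  have h := h d (hm d (by omega) (by omega))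
  rw [e3, h1, h2, h3, h4, h5, h6] at h
  simp at h

/-- The sets of the family with exactly two elements in a four element set. -/
theorem trace {n : ℕ} (hn : 10 ≤ n) {y : Fin 4 → ℕ} (hy : StrictMono y)
    (hy1 : ∀ k, y k ∈ Icc 1 n) {i j : Fin 4} (hij : i ≠ j) {S : Finset ℕ} (hS : S ∈ Fam n)
    (h : ∀ k, y k ∈ S ↔ (k = i ∨ k = j)) :
    ∃ c ∈ codes, ∃ q ∈ [7, 8, 9, 10, 11], ∀ k : Fin 4,
      (inT c q (if y k ≤ 6 then y k else 7 + k.1) = true ↔ (k = i ∨ k = j)) := by
  have hinj : Function.Injective y := hy.injective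
  have hex4 : ∀ i j : Fin 4, i ≠ j → ∃ k : Fin 4, k ≠ i ∧ k ≠ j ∧ ∃ l : Fin 4, l ≠ i ∧
      l ≠ j ∧ k ≠ l := by decide
  obtain ⟨k, hki, hkj, l, hli, hlj, hkl⟩ := hex4 i j hij
  have hk : y k ∉ S := fun hh => by rcases (h k).1 hh with h1 | h1 <;> contradiction
  have hl : y l ∉ S := fun hh => by rcases (h l).1 hh with h1 | h1 <;> contradiction
  have hi : y i ∈ S := (h i).2 (Or.inl rfl)
  have hj : y j ∈ S := (h j).2 (Or.inr rfl)
  rcases mem_Fam hn hS with rfl | rfl | ⟨x, hx, rfl⟩ | ⟨x, hx, rfl⟩ | ⟨c, hc, q, hq, rfl⟩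
  · simp at hi
  · exact absurd (hy1 k) hk
  · rw [mem_singleton] at hi hj
    exact absurd (hinj (hi.trans hj.symm)) hij
  · rw [mem_sdiff, not_and_not_right, mem_singleton] at hk hl
    exact absurd (hinj ((hk (hy1 k)).trans (hl (hy1 l)).symm)) hkl
  · refine ⟨c, hc, ?_⟩
    rw [mem_Icc] at hq
    by_cases hex : ∃ m, y m = q
    · obtain ⟨m, hm⟩ := hex
      refine ⟨7 + m.1, ?_, ?_⟩
      · fin_cases m <;> simp
      · intro k
        rw [← h k, mem_TT (hy1 k)]
        have : inT c (7 + m.1) (if y k ≤ 6 then y k else 7 + k.1) = inT c q (y k) := by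
          by_cases h6 : y k ≤ 6
          · have h7 : Nat.beq (y k) (7 + m.1) = false := by
              rw [Bool.eq_false_iff, ne_eq, Nat.beq_eq]; omega
            have h8 : Nat.beq (y k) q = false := by
              rw [Bool.eq_false_iff, ne_eq, Nat.beq_eq]; omega
            simp [inT, h6, h7, h8]
          · have h7 : Nat.beq (7 + k.1) (7 + m.1) = Nat.beq (y k) q := by
              rw [Bool.eq_iff_iff, Nat.beq_eq, Nat.beq_eq, ← hm]
              constructor
              · intro hh
                rw [Fin.ext (show k.1 = m.1 by omega)]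
              · intro hh
                rw [hinj hh]
            have h8 : Nat.ble (7 + k.1) 6 = false := by
              rw [Bool.eq_false_iff, ne_eq, Nat.ble_eq]; omega
            have h9 : Nat.ble (y k) 6 = false := by
              rw [Bool.eq_false_iff, ne_eq, Nat.ble_eq]; omega
            simp only [inT, h6, if_false, h7, h8, h9, Bool.false_and]
        rw [this]
    · push Not at hex
      refine ⟨11, by simp, ?_⟩
      intro k
      rw [← h k, mem_TT (hy1 k)]
      have : inT c 11 (if y k ≤ 6 then y k else 7 + k.1) = inT c q (y k) := by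
        have h10 : Nat.beq (y k) q = false := by
          rw [Bool.eq_false_iff, ne_eq, Nat.beq_eq]; exact hex k
        by_cases h6 : y k ≤ 6
        · have h7 : Nat.beq (y k) 11 = false := by
            rw [Bool.eq_false_iff, ne_eq, Nat.beq_eq]; omega
          simp [inT, h6, h7, h10]
        · have h7 : Nat.beq (7 + k.1) 11 = false := by
            rw [Bool.eq_false_iff, ne_eq, Nat.beq_eq]; omega
          have h8 : Nat.ble (7 + k.1) 6 = false := by
            rw [Bool.eq_false_iff, ne_eq, Nat.ble_eq]; omega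
          have h9 : Nat.ble (y k) 6 = false := by
            rw [Bool.eq_false_iff, ne_eq, Nat.ble_eq]; omega
          simp only [inT, h6, if_false, h7, h8, h9, h10, Bool.false_and]
      rw [this]

theorem no_copy {n : ℕ} (hn : 10 ≤ n) : ¬ HasInducedCopy (Q 4) (Fam n) := by
  rintro ⟨f, -, hf, hle⟩
  have hx : ∀ i : Fin 4, ∃ x, x ∈ f {i} ∧ x ∉ f ({i}ᶜ) := by
    intro i
    by_contra hcon
    push Not at hcon
    have h1 : ({i} : Finset (Fin 4)) ≤ {i}ᶜ := (hle _ _).2 hcon
    have h2 := h1 (mem_singleton_self i)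
    simp at h2
  choose x hx1 hx2 using hx
  have hx3 : ∀ (i : Fin 4) (I : Finset (Fin 4)), x i ∈ f I ↔ i ∈ I := by
    intro i I
    constructor
    · intro h
      by_contra hi
      have : I ≤ {i}ᶜ := by
        intro j hj
        rw [mem_compl, mem_singleton]
        rintro rfl
        exact hi hj
      exact hx2 i ((hle _ _).1 this h)
    · intro hi
      exact (hle {i} I).1 (by simpa using hi) (hx1 i)
  have hinj : Function.Injective x := by
    intro i j hij
    have h1 : x j ∈ f {i} := hij ▸ hx1 i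
    rw [hx3] at h1
    exact (mem_singleton.1 h1).symm
  have hxn : ∀ i, x i ∈ Icc 1 n := fun i => Fam_subset hn (hf {i}) (hx1 i)
  set σ := Tuple.sort x with hσ
  have hmono : Monotone (x ∘ σ) := Tuple.monotone_sort x
  have hstrict : StrictMono (x ∘ σ) := hmono.strictMono_of_injective (hinj.comp σ.injective)
  have hy1 : ∀ k, (x ∘ σ) k ∈ Icc 1 n := fun k => hxn _
  have key : ∀ i j : Fin 4, i ≠ j → ∃ c ∈ codes, ∃ q ∈ [7, 8, 9, 10, 11], ∀ k : Fin 4,
      (inT c q (if (x ∘ σ) k ≤ 6 then (x ∘ σ) k else 7 + k.1) = true ↔ (k = i ∨ k = j)) := by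
    intro i j hij
    refine trace hn hstrict hy1 hij (hf {σ i, σ j}) ?_
    intro k
    rw [Function.comp_apply, hx3]
    simp
  set p : Fin 4 → ℕ := fun k => if (x ∘ σ) k ≤ 6 then (x ∘ σ) k else 7 + k.1 with hp
  have hp1 : 1 ≤ p 0 := by
    have := (mem_Icc.1 (hy1 0)).1
    simp only [hp]
    split_ifs <;> omega
  have hlt : ∀ k l : Fin 4, k.1 + 1 = l.1 → p k < p l := by
    intro k l hkl
    have h1 : (x ∘ σ) k < (x ∘ σ) l := hstrict (Fin.lt_def.2 (by omega))
    simp only [hp]
    split_ifs <;> omega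
  have hp4 : p 3 ≤ 10 := by
    simp only [hp]
    split_ifs
    · omega
    · decide
  have hit : ∀ i j k l : Fin 4, i ≠ j → k ≠ i → k ≠ j → l ≠ i → l ≠ j →
      pairHit [7, 8, 9, 10, 11] (p i) (p j) (p k) (p l) = true := by
    intro i j k l hij hki hkj hli hlj
    obtain ⟨c, hc, q, hq, h⟩ := key i j hij
    rw [pairHit_iff]
    refine ⟨c, hc, q, hq, (h i).2 (Or.inl rfl), (h j).2 (Or.inr rfl), ?_, ?_⟩
    · rw [Bool.eq_false_iff, ne_eq]
      exact fun hh => by rcases (h k).1 hh with h1 | h1 <;> contradiction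
    · rw [Bool.eq_false_iff, ne_eq]
      exact fun hh => by rcases (h l).1 hh with h1 | h1 <;> contradiction
  exact free_fact hp1 (hlt 0 1 rfl) (hlt 1 2 rfl) (hlt 2 3 rfl) hp4
    (hit 0 1 2 3 (by decide) (by decide) (by decide) (by decide) (by decide))
    (hit 0 2 1 3 (by decide) (by decide) (by decide) (by decide) (by decide))
    (hit 0 3 1 2 (by decide) (by decide) (by decide) (by decide) (by decide))
    (hit 1 2 0 3 (by decide) (by decide) (by decide) (by decide) (by decide))
    (hit 1 3 0 2 (by decide) (by decide) (by decide) (by decide) (by decide))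
    (hit 2 3 0 1 (by decide) (by decide) (by decide) (by decide) (by decide))

/-! ### Adding a set creates an induced `Q_4` -/

theorem build {n : ℕ} {S : Finset ℕ} (hSn : S ⊆ Icc 1 n) {y : Fin 4 → ℕ}
    (hinj : Function.Injective y) (hy1 : ∀ k, y k ∈ Icc 1 n)
    (hS : ∀ k, y k ∈ S ↔ (k = 0 ∨ k = 1))
    (hT : ∀ i j : Fin 4, i < j → ¬ (i = 0 ∧ j = 1) → ∃ T ∈ Fam n, T ⊆ Icc 1 n ∧
      ∀ k, y k ∈ T ↔ (k = i ∨ k = j)) :
    HasInducedCopy (Q 4) (insert S (Fam n)) := by
  have hG : ∀ I : Finset (Fin 4), ∃ T : Finset ℕ, I.card = 2 →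
      T ∈ insert S (Fam n) ∧ T ⊆ Icc 1 n ∧ ∀ k, y k ∈ T ↔ k ∈ I := by
    intro I
    by_cases hI : I.card = 2
    · obtain ⟨i, j, hij, rfl⟩ : ∃ i j : Fin 4, i < j ∧ I = {i, j} := by
        revert hI
        revert I
        decide
      by_cases h01 : i = 0 ∧ j = 1
      · obtain ⟨rfl, rfl⟩ := h01
        exact ⟨S, fun _ => ⟨mem_insert_self _ _, hSn, fun k => by rw [hS]; simp⟩⟩
      · obtain ⟨T, hT1, hT2, hT3⟩ := hT i j hij h01
        exact ⟨T, fun _ => ⟨mem_insert_of_mem hT1, hT2, fun k => by rw [hT3]; simp⟩⟩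
    · exact ⟨∅, fun h => absurd h hI⟩
  choose G hG using hG
  set f : Finset (Fin 4) → Finset ℕ := fun I =>
    if I.card ≤ 1 then I.image y else if I.card = 2 then G I else Icc 1 n \ (Iᶜ).image y with hf
  have htr : ∀ (I : Finset (Fin 4)) (k : Fin 4), y k ∈ f I ↔ k ∈ I := by
    intro I k
    simp only [hf]
    split_ifs with h1 h2
    · rw [mem_image]
      constructor
      · rintro ⟨l, hl, hlk⟩
        rwa [← hinj hlk]
      · intro hk
        exact ⟨k, hk, rfl⟩
    · exact (hG I h2).2.2 k
    · rw [mem_sdiff, mem_image]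
      constructor
      · rintro ⟨-, h3⟩
        by_contra hk
        exact h3 ⟨k, mem_compl.2 hk, rfl⟩
      · intro hk
        refine ⟨hy1 k, ?_⟩
        rintro ⟨l, hl, hlk⟩
        rw [hinj hlk] at hl
        exact (mem_compl.1 hl) hk
  have hle : ∀ I J : Finset (Fin 4), I ⊆ J ↔ f I ⊆ f J := by
    intro I J
    constructor
    · intro hIJ
      have hc := card_le_card hIJ
      by_cases hI1 : I.card ≤ 1
      · have : f I = I.image y := by simp [hf, hI1]
        rw [this]
        intro z hz
        obtain ⟨k, hk, rfl⟩ := mem_image.1 hz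
        exact (htr J k).2 (hIJ hk)
      · by_cases hI2 : I.card = 2
        · have hfI : f I = G I := by simp [hf, hI2]
          rw [hfI]
          by_cases hJ2 : J.card = 2
          · rw [eq_of_subset_of_card_le hIJ (by omega)] at hfI ⊢
            rw [hfI]
          · have hfJ : f J = Icc 1 n \ (Jᶜ).image y := by
              have h1 : ¬ J.card ≤ 1 := by omega
              simp [hf, h1, hJ2]
            rw [hfJ]
            intro z hz
            refine mem_sdiff.2 ⟨(hG I hI2).2.1 hz, ?_⟩
            intro hz2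
            obtain ⟨k, hk, rfl⟩ := mem_image.1 hz2
            exact (mem_compl.1 hk) (hIJ (((hG I hI2).2.2 k).1 hz))
        · have hfI : f I = Icc 1 n \ (Iᶜ).image y := by
            simp [hf, hI1, hI2]
          have hfJ : f J = Icc 1 n \ (Jᶜ).image y := by
            have h1 : ¬ J.card ≤ 1 := by omega
            have h2 : ¬ J.card = 2 := by omega
            simp [hf, h1, h2]
          rw [hfI, hfJ]
          exact sdiff_subset_sdiff Subset.rfl (image_subset_image (compl_subset_compl.2 hIJ))
    · intro h k hk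
      exact (htr J k).1 (h ((htr I k).2 hk))
  refine ⟨f, ?_, ?_, hle⟩
  · intro I J hIJ
    exact Subset.antisymm ((hle I J).2 hIJ.subset) ((hle J I).2 hIJ.symm.subset)
  · intro I
    by_cases h1 : I.card ≤ 1
    · have hfI : f I = I.image y := by simp [hf, h1]
      rw [hfI]
      refine mem_insert_of_mem ?_
      rcases Nat.eq_zero_or_pos I.card with h0 | h0
      · rw [card_eq_zero.1 h0, image_empty]
        exact empty_mem_Fam n
      · obtain ⟨k, rfl⟩ := card_eq_one.1 (show I.card = 1 by omega)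
        rw [image_singleton]
        exact single_mem_Fam (hy1 k)
    · by_cases h2 : I.card = 2
      · have hfI : f I = G I := by simp [hf, h2]
        rw [hfI]
        exact (hG I h2).1
      · have hfI : f I = Icc 1 n \ (Iᶜ).image y := by simp [hf, h1, h2]
        rw [hfI]
        refine mem_insert_of_mem ?_
        have hc : (Iᶜ).card ≤ 1 := by
          rw [card_compl, Fintype.card_fin]
          omega
        rcases Nat.eq_zero_or_pos (Iᶜ).card with h0 | h0
        · rw [card_eq_zero.1 h0, image_empty, sdiff_empty]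
          exact Icc_mem_Fam n
        · obtain ⟨k, hk⟩ := card_eq_one.1 (show (Iᶜ).card = 1 by omega)
          rw [hk, image_singleton]
          exact cosingle_mem_Fam (hy1 k)

/-- A placement of the four variable positions. -/
structure Placement (n : ℕ) (φ : ℕ → ℕ) : Prop where
  low : ∀ p, p ≤ 6 → φ p = p
  high : ∀ p, 7 ≤ p → p ≤ 10 → φ p ∈ Icc 7 n
  inj : ∀ p q, 7 ≤ p → p ≤ 10 → 7 ≤ q → q ≤ 10 → φ p = φ q → p = q

theorem Placement.inT_eq {n : ℕ} {φ : ℕ → ℕ} (h : Placement n φ) (c : Code) {p q : ℕ}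
    (hp : p ≤ 10) (hq1 : 7 ≤ q) (hq2 : q ≤ 10) : inT c (φ q) (φ p) = inT c q p := by
  have hq3 := mem_Icc.1 (h.high q hq1 hq2)
  by_cases h6 : p ≤ 6
  · rw [h.low p h6]
    have h7 : Nat.beq p (φ q) = false := by
      rw [Bool.eq_false_iff, ne_eq, Nat.beq_eq]; omega
    have h8 : Nat.beq p q = false := by
      rw [Bool.eq_false_iff, ne_eq, Nat.beq_eq]; omega
    simp only [inT, h7, h8]
  · have hp3 := mem_Icc.1 (h.high p (by omega) hp)
    have h7 : Nat.beq (φ p) (φ q) = Nat.beq p q := by
      rw [Bool.eq_iff_iff, Nat.beq_eq, Nat.beq_eq]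
      constructor
      · intro hh
        exact h.inj p q (by omega) hp hq1 hq2 hh
      · rintro rfl
        rfl
    have h8 : Nat.ble (φ p) 6 = false := by
      rw [Bool.eq_false_iff, ne_eq, Nat.ble_eq]; omega
    have h9 : Nat.ble p 6 = false := by
      rw [Bool.eq_false_iff, ne_eq, Nat.ble_eq]; omega
    simp only [inT, h7, h8, h9, Bool.false_and]

theorem Placement.mem {n : ℕ} (hn : 10 ≤ n) {φ : ℕ → ℕ} (h : Placement n φ) {p : ℕ}
    (hp1 : 1 ≤ p) (hp : p ≤ 10) : φ p ∈ Icc 1 n := by
  by_cases h6 : p ≤ 6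
  · rw [h.low p h6, mem_Icc]
    omega
  · have := mem_Icc.1 (h.high p (by omega) hp)
    rw [mem_Icc]
    omega

theorem Placement.inj' {n : ℕ} {φ : ℕ → ℕ} (h : Placement n φ) {p q : ℕ}
    (hp : p ≤ 10) (hq : q ≤ 10) (hpq : φ p = φ q) : p = q := by
  by_cases h6 : p ≤ 6
  · by_cases h6' : q ≤ 6
    · rwa [h.low p h6, h.low q h6'] at hpq
    · have := mem_Icc.1 (h.high q (by omega) hq)
      rw [h.low p h6] at hpq
      omega
  · by_cases h6' : q ≤ 6
    · have := mem_Icc.1 (h.high p (by omega) hp)
      rw [h.low q h6'] at hpq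
      omega
    · exact h.inj p q (by omega) hp (by omega) hq hpq

theorem copy_of_handled {n : ℕ} (hn : 10 ≤ n) {φ : ℕ → ℕ} (h : Placement n φ) {S : Finset ℕ}
    (hSn : S ⊆ Icc 1 n) {s : ℕ → Bool} (hs : ∀ p, 1 ≤ p → p ≤ 10 → (φ p ∈ S ↔ s p = true))
    (hh : handled s = true) : HasInducedCopy (Q 4) (insert S (Fam n)) := by
  unfold handled at hh
  rw [List.any_eq_true] at hh
  obtain ⟨⟨p0, p1, p2, p3⟩, he, hs4⟩ := hh
  simp only [Bool.and_eq_true, Bool.not_eq_true'] at hs4
  obtain ⟨s0, s1, s2, s3⟩ := hs4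
  have hc := entryCheck_eq
  unfold entryCheck at hc
  rw [List.all_eq_true] at hc
  have hc := hc _ he
  simp only [Bool.and_eq_true] at hc
  obtain ⟨t02, t03, t12, t13, t23, m0, m1, m2, m3⟩ := hc
  have hm : ∀ x, rng.contains x = true → 1 ≤ x ∧ x ≤ 10 := by
    intro x hx
    have : x ∈ rng := by simpa using hx
    simp only [rng, List.mem_cons, List.not_mem_nil, or_false] at this
    omega
  obtain ⟨a0, b0⟩ := hm _ m0
  obtain ⟨a1, b1⟩ := hm _ m1
  obtain ⟨a2, b2⟩ := hm _ m2
  obtain ⟨a3, b3⟩ := hm _ m3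
  -- lift of a trace
  have lift : ∀ a b c d : ℕ, a ≤ 10 → b ≤ 10 → c ≤ 10 → d ≤ 10 → 1 ≤ a → 1 ≤ b → 1 ≤ c → 1 ≤ d →
      pairHit [7, 8, 9, 10] a b c d = true →
      ∃ T ∈ Fam n, T ⊆ Icc 1 n ∧ φ a ∈ T ∧ φ b ∈ T ∧ φ c ∉ T ∧ φ d ∉ T := by
    intro a b c d ha hb hc hd ha1 hb1 hc1 hd1 hp
    obtain ⟨k, hk, q, hq, e1, e2, e3, e4⟩ := pairHit_iff.1 hp
    have hq' : 7 ≤ q ∧ q ≤ 10 := by
      simp only [List.mem_cons, List.not_mem_nil, or_false] at hq
      omega
    refine ⟨TT n k (φ q), TT_mem_Fam hk (h.high q hq'.1 hq'.2), TT_subset _ _ _, ?_, ?_, ?_, ?_⟩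
    · rw [mem_TT (h.mem hn ha1 ha), h.inT_eq k ha hq'.1 hq'.2, e1]
    · rw [mem_TT (h.mem hn hb1 hb), h.inT_eq k hb hq'.1 hq'.2, e2]
    · rw [mem_TT (h.mem hn hc1 hc), h.inT_eq k hc hq'.1 hq'.2, e3]
      simp
    · rw [mem_TT (h.mem hn hd1 hd), h.inT_eq k hd hq'.1 hq'.2, e4]
      simp
  set y : Fin 4 → ℕ := ![φ p0, φ p1, φ p2, φ p3] with hy
  have hy0 : y 0 = φ p0 := rfl
  have hy1 : y 1 = φ p1 := rfl
  have hy2 : y 2 = φ p2 := rfl
  have hy3 : y 3 = φ p3 := rfl
  have S0 : y 0 ∈ S := (hs p0 a0 b0).2 s0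
  have S1 : y 1 ∈ S := (hs p1 a1 b1).2 s1
  have S2 : y 2 ∉ S := fun hh => by rw [hy2, hs p2 a2 b2, s2] at hh; simp at hh
  have S3 : y 3 ∉ S := fun hh => by rw [hy3, hs p3 a3 b3, s3] at hh; simp at hh
  obtain ⟨T02, f02, g02, u1, u2, u3, u4⟩ := lift _ _ _ _ b0 b2 b1 b3 a0 a2 a1 a3 t02
  obtain ⟨T03, f03, g03, v1, v2, v3, v4⟩ := lift _ _ _ _ b0 b3 b1 b2 a0 a3 a1 a2 t03
  obtain ⟨T12, f12, g12, w1, w2, w3, w4⟩ := lift _ _ _ _ b1 b2 b0 b3 a1 a2 a0 a3 t12
  obtain ⟨T13, f13, g13, x1, x2, x3, x4⟩ := lift _ _ _ _ b1 b3 b0 b2 a1 a3 a0 a2 t13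
  obtain ⟨T23, f23, g23, z1, z2, z3, z4⟩ := lift _ _ _ _ b2 b3 b0 b1 a2 a3 a0 a1 t23
  have hinj : Function.Injective y := by
    have n01 : y 0 ≠ y 1 := fun e => u3 (by rw [← hy1, ← e]; exact u1)
    have n02 : y 0 ≠ y 2 := fun e => S2 (e ▸ S0)
    have n03 : y 0 ≠ y 3 := fun e => S3 (e ▸ S0)
    have n12 : y 1 ≠ y 2 := fun e => S2 (e ▸ S1)
    have n13 : y 1 ≠ y 3 := fun e => S3 (e ▸ S1)
    have n23 : y 2 ≠ y 3 := fun e => u4 (by rw [← hy3, ← e]; exact u2)
    intro i j hij
    fin_cases i <;> fin_cases j <;> first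
      | rfl
      | exact absurd hij n01
      | exact absurd hij n02
      | exact absurd hij n03
      | exact absurd hij n12
      | exact absurd hij n13
      | exact absurd hij n23
      | exact absurd hij.symm n01
      | exact absurd hij.symm n02
      | exact absurd hij.symm n03
      | exact absurd hij.symm n12
      | exact absurd hij.symm n13
      | exact absurd hij.symm n23
  refine build hSn hinj ?_ ?_ ?_
  · intro k
    fin_cases k
    · exact h.mem hn a0 b0
    · exact h.mem hn a1 b1
    · exact h.mem hn a2 b2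
    · exact h.mem hn a3 b3
  · intro k
    fin_cases k
    · simpa using S0
    · simpa using S1
    · simpa using S2
    · simpa using S3
  · intro i j hij h01
    have main : ∀ (T : Finset ℕ), T ∈ Fam n → T ⊆ Icc 1 n → ∀ (B : Fin 4 → Bool),
        (∀ k, B k = true ↔ (k = i ∨ k = j)) → ((y 0 ∈ T ↔ B 0 = true) ∧ (y 1 ∈ T ↔ B 1 = true) ∧
          (y 2 ∈ T ↔ B 2 = true) ∧ (y 3 ∈ T ↔ B 3 = true)) →
        ∃ T ∈ Fam n, T ⊆ Icc 1 n ∧ ∀ k, y k ∈ T ↔ (k = i ∨ k = j) := by
      intro T hT1 hT2 B hB hT3
      refine ⟨T, hT1, hT2, ?_⟩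
      intro k
      rw [← hB]
      fin_cases k
      · exact hT3.1
      · exact hT3.2.1
      · exact hT3.2.2.1
      · exact hT3.2.2.2
    have cases4 : (i = 0 ∧ j = 2) ∨ (i = 0 ∧ j = 3) ∨ (i = 1 ∧ j = 2) ∨ (i = 1 ∧ j = 3) ∨
        (i = 2 ∧ j = 3) := by
      revert h01 hij
      clear main
      revert i j
      decide
    rcases cases4 with ⟨rfl, rfl⟩ | ⟨rfl, rfl⟩ | ⟨rfl, rfl⟩ | ⟨rfl, rfl⟩ | ⟨rfl, rfl⟩
    · exact main T02 f02 g02 ![true, false, true, false] (by decide)
        ⟨iff_of_true u1 rfl, iff_of_false u3 (by decide), iff_of_true u2 rfl, iff_of_false u4 (by decide)⟩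
    · exact main T03 f03 g03 ![true, false, false, true] (by decide)
        ⟨iff_of_true v1 rfl, iff_of_false v3 (by decide), iff_of_false v4 (by decide), iff_of_true v2 rfl⟩
    · exact main T12 f12 g12 ![false, true, true, false] (by decide)
        ⟨iff_of_false w3 (by decide), iff_of_true w1 rfl, iff_of_true w2 rfl, iff_of_false w4 (by decide)⟩
    · exact main T13 f13 g13 ![false, true, false, true] (by decide)
        ⟨iff_of_false x3 (by decide), iff_of_true x1 rfl, iff_of_false x4 (by decide), iff_of_true x2 rfl⟩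
    · exact main T23 f23 g23 ![false, false, true, true] (by decide)
        ⟨iff_of_false z3 (by decide), iff_of_false z4 (by decide), iff_of_true z1 rfl, iff_of_true z2 rfl⟩

theorem triv_mem {n : ℕ} (hn : 10 ≤ n) {b : ℕ} {h : Bool} (hb : (b, h) ∈ triv) (co : Bool)
    {q : ℕ} (hq : q ∈ Icc 7 n) : TT n (co, b, h) q ∈ Fam n := by
  have hq' := mem_Icc.1 hq
  -- the uncomplemented set is empty or a singleton
  have main : (∀ x, inT (false, b, h) q x = false) ∨
      ∃ i ∈ Icc 1 n, ∀ x, inT (false, b, h) q x = true ↔ x = i := by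
    have hpow : ∀ i, 1 ≤ i → i ≤ 6 → ∀ x, inT (false, 2 ^ i, false) q x = true ↔ x = i := by
      intro i h1 h2 x
      simp only [inT, Bool.false_xor, Bool.false_and, Bool.or_false, Bool.and_eq_true,
        Nat.ble_eq, Nat.testBit_two_pow, decide_eq_true_eq]
      omega
    simp only [triv, List.mem_cons, Prod.mk.injEq, List.not_mem_nil, or_false] at hb
    rcases hb with ⟨rfl, rfl⟩ | ⟨rfl, rfl⟩ | ⟨rfl, rfl⟩ | ⟨rfl, rfl⟩ | ⟨rfl, rfl⟩ | ⟨rfl, rfl⟩ |
      ⟨rfl, rfl⟩ | ⟨rfl, rfl⟩
    · left
      intro x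
      simp [inT]
    · exact Or.inr ⟨1, by simp; omega, hpow 1 (by omega) (by omega)⟩
    · exact Or.inr ⟨2, by simp; omega, hpow 2 (by omega) (by omega)⟩
    · exact Or.inr ⟨3, by simp; omega, hpow 3 (by omega) (by omega)⟩
    · exact Or.inr ⟨4, by simp; omega, hpow 4 (by omega) (by omega)⟩
    · exact Or.inr ⟨5, by simp; omega, hpow 5 (by omega) (by omega)⟩
    · exact Or.inr ⟨6, by simp; omega, hpow 6 (by omega) (by omega)⟩
    · refine Or.inr ⟨q, by simp; omega, ?_⟩
      intro x
      simp [inT]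
  have hco : ∀ x, inT (true, b, h) q x = !inT (false, b, h) q x := by
    intro x
    simp [inT]
  rcases main with h0 | ⟨i, hi, h1⟩
  · cases co
    · have : TT n (false, b, h) q = ∅ := by
        ext x
        simp [TT, h0]
      rw [this]
      exact empty_mem_Fam n
    · have : TT n (true, b, h) q = Icc 1 n := by
        ext x
        simp [TT, hco, h0]
      rw [this]
      exact Icc_mem_Fam n
  · cases co
    · have : TT n (false, b, h) q = {i} := by
        ext x
        rw [TT, mem_filter, h1, mem_singleton]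
        constructor
        · exact fun hh => hh.2
        · rintro rfl
          exact ⟨hi, rfl⟩
      rw [this]
      exact single_mem_Fam hi
    · have : TT n (true, b, h) q = Icc 1 n \ {i} := by
        ext x
        rw [TT, mem_filter, hco, mem_sdiff, mem_singleton, Bool.not_eq_true', Bool.eq_false_iff,
          ne_eq, h1]
      rw [this]
      exact cosingle_mem_Fam hi

/-- A set of special type. -/
theorem special {n : ℕ} (hn : 10 ≤ n) {S : Finset ℕ} {co h : Bool} {r u : ℕ} (hr : r < 64)
    (hu : u ∈ Icc 7 n) (hS : S = TT n (co, 2 * r, h) u) (hSF : S ∉ Fam n) :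
    HasInducedCopy (Q 4) (insert S (Fam n)) := by
  have h1 := cover1_eq
  unfold cover1 at h1
  rw [List.all_eq_true] at h1
  have h1 := h1 co (by cases co <;> simp)
  rw [List.all_eq_true] at h1
  have h1 := h1 h (by cases h <;> simp)
  rw [List.all_eq_true] at h1
  have h1 := h1 r (List.mem_range.2 hr)
  rw [Bool.or_eq_true, Bool.or_eq_true] at h1
  rcases h1 with h1 | h1 | h1
  · exact absurd (hS ▸ TT_mem_Fam (by simpa using h1) hu) hSF
  · exact absurd (hS ▸ triv_mem hn (by simpa using h1) co hu) hSF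
  · -- choose three further variable elements
    have hcard : 3 ≤ ((Icc 7 n).erase u).card := by
      rw [card_erase_of_mem hu, Nat.card_Icc]
      omega
    obtain ⟨W, hW, hWc⟩ := exists_subset_card_eq hcard
    obtain ⟨a, b, c, hab, hac, hbc, rfl⟩ := card_eq_three.1 hWc
    have ha := hW (show a ∈ ({a, b, c} : Finset ℕ) by simp)
    have hb := hW (show b ∈ ({a, b, c} : Finset ℕ) by simp)
    have hc := hW (show c ∈ ({a, b, c} : Finset ℕ) by simp)
    rw [mem_erase] at ha hb hc
    set φ : ℕ → ℕ := fun p => if p ≤ 6 then p else if p = 7 then u else if p = 8 then a else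
      if p = 9 then b else c with hφ
    have f7 : φ 7 = u := by simp [hφ]
    have f8 : φ 8 = a := by simp [hφ]
    have f9 : φ 9 = b := by simp [hφ]
    have f10 : φ 10 = c := by simp [hφ]
    have hP : Placement n φ := by
      constructor
      · intro p hp
        simp [hφ, hp]
      · intro p hp1 hp2
        interval_cases p
        · rw [f7]; exact hu
        · rw [f8]; exact ha.2
        · rw [f9]; exact hb.2
        · rw [f10]; exact hc.2
      · intro p q hp1 hp2 hq1 hq2 hpq
        interval_cases p <;> interval_cases q <;> simp only [f7, f8, f9, f10] at hpq <;> first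
          | rfl
          | exact absurd hpq ha.1
          | exact absurd hpq.symm ha.1
          | exact absurd hpq hb.1
          | exact absurd hpq.symm hb.1
          | exact absurd hpq hc.1
          | exact absurd hpq.symm hc.1
          | exact absurd hpq hab
          | exact absurd hpq.symm hab
          | exact absurd hpq hac
          | exact absurd hpq.symm hac
          | exact absurd hpq hbc
          | exact absurd hpq.symm hbc
    refine copy_of_handled hn hP (hS ▸ TT_subset _ _ _) ?_ h1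
    intro p hp1 hp2
    rw [hS, mem_TT (hP.mem hn hp1 hp2), ← f7, hP.inT_eq _ hp2 (le_refl _) (by omega)]

/-- Base patterns. -/
theorem exists_pattern (s : ℕ → Bool) : ∃ r < 64, ∀ x, 1 ≤ x → x ≤ 6 →
    (2 * r).testBit x = s x := by
  have key : ∀ b1 b2 b3 b4 b5 b6 : Bool, ((List.range 64).any fun r =>
      ((2 * r).testBit 1 == b1) && (((2 * r).testBit 2 == b2) && (((2 * r).testBit 3 == b3) &&
        (((2 * r).testBit 4 == b4) && (((2 * r).testBit 5 == b5) &&
          ((2 * r).testBit 6 == b6)))))) = true := by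
    intro b1 b2 b3 b4 b5 b6
    cases b1 <;> cases b2 <;> cases b3 <;> cases b4 <;> cases b5 <;> cases b6 <;> rfl
  have h := key (s 1) (s 2) (s 3) (s 4) (s 5) (s 6)
  simp only [List.any_eq_true, Bool.and_eq_true, beq_iff_eq] at h
  obtain ⟨r, hr, h1, h2, h3, h4, h5, h6⟩ := h
  refine ⟨r, List.mem_range.1 hr, ?_⟩
  intro x hx1 hx2
  interval_cases x <;> assumption

theorem sat {n : ℕ} (hn : 10 ≤ n) {S : Finset ℕ} (hSn : S ⊆ Icc 1 n) (hSF : S ∉ Fam n) :
    HasInducedCopy (Q 4) (insert S (Fam n)) := by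
  set A := (Icc 7 n).filter (fun x => x ∈ S) with hA
  set A' := (Icc 7 n).filter (fun x => x ∉ S) with hA'
  by_cases c1 : A.card ≤ 1
  · obtain ⟨r, hr, hpat⟩ := exists_pattern (fun x => decide (x ∈ S))
    rcases Nat.eq_zero_or_pos A.card with h0 | h0
    · have hA0 : ∀ x ∈ Icc 7 n, x ∉ S := by
        intro x hx hxS
        have : x ∈ A := mem_filter.2 ⟨hx, hxS⟩
        rw [card_eq_zero.1 h0] at this
        simp at this
      refine special (co := false) (h := false) (u := 7) hn hr (by simp; omega) ?_ hSF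
      ext x
      by_cases hx : x ∈ Icc 1 n
      · rw [mem_TT hx]
        by_cases h6 : x ≤ 6
        · have := hpat x (mem_Icc.1 hx).1 h6
          simp [inT, h6, this]
        · have h7 : x ∉ S := hA0 x (by rw [mem_Icc] at hx ⊢; omega)
          simp [inT, h6, h7]
      · exact iff_of_false (fun h => hx (hSn h)) (fun h => hx (TT_subset _ _ _ h))
    · obtain ⟨u, hu⟩ := card_eq_one.1 (show A.card = 1 by omega)
      have huA : u ∈ A := by rw [hu]; simp
      have hu7 : u ∈ Icc 7 n := (mem_filter.1 huA).1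
      have hAu : ∀ x ∈ Icc 7 n, (x ∈ S ↔ x = u) := by
        intro x hx
        constructor
        · intro hxS
          have : x ∈ A := mem_filter.2 ⟨hx, hxS⟩
          rw [hu] at this
          simpa using this
        · rintro rfl
          exact (mem_filter.1 huA).2
      refine special (co := false) (h := true) (u := u) hn hr hu7 ?_ hSF
      ext x
      by_cases hx : x ∈ Icc 1 n
      · rw [mem_TT hx]
        by_cases h6 : x ≤ 6
        · have := hpat x (mem_Icc.1 hx).1 h6
          have h8 : x ≠ u := by rw [mem_Icc] at hu7; omega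
          simp [inT, h6, this, h8]
        · have h7 := hAu x (by rw [mem_Icc] at hx ⊢; omega)
          simp [inT, h6, h7]
      · exact iff_of_false (fun h => hx (hSn h)) (fun h => hx (TT_subset _ _ _ h))
  · by_cases c2 : A'.card ≤ 1
    · obtain ⟨r, hr, hpat⟩ := exists_pattern (fun x => !decide (x ∈ S))
      rcases Nat.eq_zero_or_pos A'.card with h0 | h0
      · have hA0 : ∀ x ∈ Icc 7 n, x ∈ S := by
          intro x hx
          by_contra hxS
          have : x ∈ A' := mem_filter.2 ⟨hx, hxS⟩
          rw [card_eq_zero.1 h0] at this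
          simp at this
        refine special (co := true) (h := false) (u := 7) hn hr (by simp; omega) ?_ hSF
        ext x
        by_cases hx : x ∈ Icc 1 n
        · rw [mem_TT hx]
          by_cases h6 : x ≤ 6
          · have := hpat x (mem_Icc.1 hx).1 h6
            simp [inT, h6, this]
          · have h7 : x ∈ S := hA0 x (by rw [mem_Icc] at hx ⊢; omega)
            have hb : Nat.ble x 6 = false := by rw [Bool.eq_false_iff, ne_eq, Nat.ble_eq]; omega
            simp [inT, hb, h7]
        · exact iff_of_false (fun h => hx (hSn h)) (fun h => hx (TT_subset _ _ _ h))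
      · obtain ⟨u, hu⟩ := card_eq_one.1 (show A'.card = 1 by omega)
        have huA : u ∈ A' := by rw [hu]; simp
        have hu7 : u ∈ Icc 7 n := (mem_filter.1 huA).1
        have hAu : ∀ x ∈ Icc 7 n, (x ∈ S ↔ x ≠ u) := by
          intro x hx
          constructor
          · rintro hxS rfl
            exact (mem_filter.1 huA).2 hxS
          · intro hne
            by_contra hxS
            have : x ∈ A' := mem_filter.2 ⟨hx, hxS⟩
            rw [hu] at this
            exact hne (by simpa using this)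
        refine special (co := true) (h := true) (u := u) hn hr hu7 ?_ hSF
        ext x
        by_cases hx : x ∈ Icc 1 n
        · rw [mem_TT hx]
          by_cases h6 : x ≤ 6
          · have := hpat x (mem_Icc.1 hx).1 h6
            have h8 : Nat.beq x u = false := by
              rw [mem_Icc] at hu7; rw [Bool.eq_false_iff, ne_eq, Nat.beq_eq]; omega
            have hb : Nat.ble x 6 = true := by rw [Nat.ble_eq]; exact h6
            simp [inT, hb, this, h8]
          · have h7 := hAu x (by rw [mem_Icc] at hx ⊢; omega)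
            have hb : Nat.ble x 6 = false := by rw [Bool.eq_false_iff, ne_eq, Nat.ble_eq]; omega
            rw [inT, hb, h7]
            by_cases hxu : x = u
            · subst hxu
              simp
            · have h8 : Nat.beq x u = false := by rw [Bool.eq_false_iff, ne_eq, Nat.beq_eq]; omega
              simp [h8, hxu]
        · exact iff_of_false (fun h => hx (hSn h)) (fun h => hx (TT_subset _ _ _ h))
    · -- two elements in, two elements out
      obtain ⟨r, hr, hpat⟩ := exists_pattern (fun x => decide (x ∈ S))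
      obtain ⟨a, ha, b, hb, hab⟩ := one_lt_card.1 (show 1 < A.card by omega)
      obtain ⟨c, hc, d, hd, hcd⟩ := one_lt_card.1 (show 1 < A'.card by omega)
      rw [hA, mem_filter] at ha hb
      rw [hA', mem_filter] at hc hd
      have hac : a ≠ c := fun e => hc.2 (e ▸ ha.2)
      have had : a ≠ d := fun e => hd.2 (e ▸ ha.2)
      have hbc : b ≠ c := fun e => hc.2 (e ▸ hb.2)
      have hbd : b ≠ d := fun e => hd.2 (e ▸ hb.2)
      set φ : ℕ → ℕ := fun p => if p ≤ 6 then p else if p = 7 then a else if p = 8 then b else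
        if p = 9 then c else d with hφ
      have f7 : φ 7 = a := by simp [hφ]
      have f8 : φ 8 = b := by simp [hφ]
      have f9 : φ 9 = c := by simp [hφ]
      have f10 : φ 10 = d := by simp [hφ]
      have hP : Placement n φ := by
        constructor
        · intro p hp
          simp [hφ, hp]
        · intro p hp1 hp2
          interval_cases p
          · rw [f7]; exact ha.1
          · rw [f8]; exact hb.1
          · rw [f9]; exact hc.1
          · rw [f10]; exact hd.1
        · intro p q hp1 hp2 hq1 hq2 hpq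
          interval_cases p <;> interval_cases q <;> simp only [f7, f8, f9, f10] at hpq <;> first
            | rfl
            | exact absurd hpq hab
            | exact absurd hpq.symm hab
            | exact absurd hpq hac
            | exact absurd hpq.symm hac
            | exact absurd hpq had
            | exact absurd hpq.symm had
            | exact absurd hpq hbc
            | exact absurd hpq.symm hbc
            | exact absurd hpq hbd
            | exact absurd hpq.symm hbd
            | exact absurd hpq hcd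
            | exact absurd hpq.symm hcd
      have h2 := cover2_eq
      unfold cover2 at h2
      rw [List.all_eq_true] at h2
      refine copy_of_handled hn hP hSn ?_ (h2 r (List.mem_range.2 hr))
      intro p hp1 hp2
      by_cases h6 : p ≤ 6
      · rw [hP.low p h6]
        have h7 : Nat.beq p 7 = false := by rw [Bool.eq_false_iff, ne_eq, Nat.beq_eq]; omega
        have h8 : Nat.beq p 8 = false := by rw [Bool.eq_false_iff, ne_eq, Nat.beq_eq]; omega
        have h9 : Nat.ble p 6 = true := by rw [Nat.ble_eq]; exact h6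
        rw [twoTwo, h7, h8, h9, hpat p hp1 h6]
        simp
      · have : p = 7 ∨ p = 8 ∨ p = 9 ∨ p = 10 := by omega
        rcases this with rfl | rfl | rfl | rfl
        · rw [f7]
          exact iff_of_true ha.2 rfl
        · rw [f8]
          exact iff_of_true hb.2 rfl
        · rw [f9]
          exact iff_of_false hc.2 (by simp [twoTwo])
        · rw [f10]
          exact iff_of_false hd.2 (by simp [twoTwo])

/-- The bound `sat*(n, Q_4) ≤ 6 n - 5`. -/
theorem satStar_le {n : ℕ} (hn : 10 ≤ n) : satStar (Q 4) n ≤ 6 * n - 5 := by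
  refine le_trans (Nat.sInf_le ⟨Fam n, ⟨fun S hS => Fam_subset hn hS, no_copy hn,
    fun S h1 h2 => sat hn h1 h2⟩, rfl⟩) (card_Fam hn)

/-- It is not true that for every `k ≥ 3` there is a constant `c` with
`sat*(n, Q_k) = (2 ^ (k - 1) - 1) n - c` for all large `n`. -/
theorem result : ¬ ∀ k : ℕ, 3 ≤ k → ∃ c : ℤ, ∀ᶠ n : ℕ in Filter.atTop,
    (satStar (Q k) n : ℤ) = (2 ^ (k - 1) - 1) * (n : ℤ) - c := by
  intro h
  obtain ⟨c, hc⟩ := h 4 (by norm_num)
  obtain ⟨N, hN⟩ := Filter.eventually_atTop.1 hc
  have h1 := hN (max N (max 10 c.toNat)) (le_max_left _ _)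
  set n := max N (max 10 c.toNat) with hn
  have h10 : 10 ≤ n := le_trans (le_max_left _ _) (le_max_right _ _)
  have hcn : c ≤ n := by
    have : c.toNat ≤ n := le_trans (le_max_right _ _) (le_max_right _ _)
    omega
  have h2 := satStar_le h10
  norm_num at h1
  omega

end Pool.Agent.Results.MP_a8c71c_co.BooleanLatticeSat
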